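import Pool.Agent.H78.SS.Real

/-!
Problem MP_5db220_lc: real and Aronszajn strongly surjective linear orders can coexist.  All
definitions are in `Pool.Agent.H78.SS.Defs`.
-/

set_option autoImplicit false

namespace Pool.Agent.Results.MP_5db220_lc.Coexistence

open Pool.Agent.H78.SS

/-- Baumgartner's axiom implies that there is an uncountable strongly surjective set of reals, and
`MA_ℵ₁` implies that there is a strongly surjective Aronszajn line.  Hence in every model of
`MA_ℵ₁` together with Baumgartner's axiom both kinds exist. -/
theorem result :
    (BaumgartnerAxiom → ∃ X : Set ℝ, ¬ X.Countable ∧ StronglySurjective X) ∧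
    (MartinAxiom → ∃ (L : Type) (_ : LinearOrder L), IsAronszajnLine L ∧ StronglySurjective L) := by
  constructor
  · intro hBA
    obtain ⟨X, hX⟩ := exists_aleph1Dense
    exact ⟨X, hX.not_countable, real_ss hBA hX⟩
  · intro hMA
    exact ⟨L0, inferInstance, L0_aronszajn, L0_ss hMA⟩

end Pool.Agent.Results.MP_5db220_lc.Coexistence
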